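import Pool.Agent.Helper49.LC.St

/-!
Project LC (MP_58b586_gt), module DF2.
-/

set_option autoImplicit false

namespace Pool.Agent.Helper33.LC

open Pool.Agent.Helper14.LK Pool.Agent.Helper49.LC
open Pool.Agent.Helper14.LE (hd lt mk hd_mk lt_mk mk_hd_lt ext_hd_lt abs_lt_le)

private lemma fact1 {k : ℕ} {ι : EE (k + 1) → WW (k + 1)} {R : ℝ} (hK : Kn ι 0 R)
    (w : WW (k + 1)) (hw : R < lt w.1) (h : w ∈ Set.range ι) : w.2 = 0 := by
  obtain ⟨y, rfl⟩ := h
  by_cases hy : ‖y‖ ≤ R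
  · exfalso
    have h1 := hK.near y (by rwa [sub_zero])
    have h2 : ‖ι y‖ ≤ R := by
      have : ((0 : EE (k + 1)), (0 : EE (k + 1))) = (0 : WW (k + 1)) := rfl
      rwa [this, sub_zero] at h1
    have h3 := abs_lt_le (ι y).1
    have h4 : ‖(ι y).1‖ ≤ ‖ι y‖ := norm_fst_le (ι y)
    have h5 := le_abs_self (lt (ι y).1)
    linarith
  · have h1 := hK.far y (by rw [sub_zero]; linarith)
    rw [h1]

private lemma fact2 {k : ℕ} {ι : EE (k + 1) → WW (k + 1)} {R : ℝ} (hK : Kn ι 0 R)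
    (w : WW (k + 1)) (hw : R < lt w.1) (h : w.2 = 0) : w ∈ Set.range ι := by
  have h1 := hK.far w.1 (by
    rw [sub_zero]
    have h3 := abs_lt_le w.1
    have h5 := le_abs_self (lt w.1)
    linarith)
  refine ⟨w.1, ?_⟩
  rw [h1]
  exact Prod.ext rfl h.symm

private lemma rf_hd1 {k : ℕ} (T : ℝ) (w : WW (k + 1)) : hd (rf T w).1 = hd w.1 := by
  unfold rf; exact hd_mk _
private lemma rf_hd2 {k : ℕ} (T : ℝ) (w : WW (k + 1)) : hd (rf T w).2 = hd w.2 := by
  unfold rf; exact hd_mk _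
private lemma rf_lt1 {k : ℕ} (T : ℝ) (w : WW (k + 1)) : lt (rf T w).1 = 2 * T - lt w.1 := by
  unfold rf; exact lt_mk _
private lemma rf_lt2 {k : ℕ} (T : ℝ) (w : WW (k + 1)) : lt (rf T w).2 = -lt w.2 := by
  unfold rf; exact lt_mk _

private lemma wext {k : ℕ} {w v : WW (k + 1)} (h1 : hd w.1 = hd v.1) (h2 : lt w.1 = lt v.1)
    (h3 : hd w.2 = hd v.2) (h4 : lt w.2 = lt v.2) : w = v :=
  Prod.ext (ext_hd_lt h1 h2) (ext_hd_lt h3 h4)

theorem hDF2 : StDF2 := by
  intro k ι R hK Θ hΘ hJ T σ σ' D hRT hσ1 hσ2 hσ3 hD w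
  have hrg : ∀ v : WW (k + 1), v ∈ Set.range ι → ∃ x, ι (Θ x) = v ∧ lt x = lt v.1 := by
    rintro v ⟨y, rfl⟩
    obtain ⟨x, rfl⟩ := hΘ y
    exact ⟨x, rfl, (hJ x).symm⟩
  have hD1 : ∀ x, hd (D x).1 = hd (ι (Θ (mk (hd x, σ (lt x))))).1 := by
    intro x; rw [hD]; exact hd_mk _
  have hD2 : ∀ x, lt (D x).1 = lt x := by
    intro x; rw [hD]; exact lt_mk _
  have hD3 : ∀ x, hd (D x).2 = hd (ι (Θ (mk (hd x, σ (lt x))))).2 := by
    intro x; rw [hD]; exact hd_mk _
  have hD4 : ∀ x, lt (D x).2 = σ' (lt x) * lt (ι (Θ (mk (hd x, σ (lt x))))).2 := by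
    intro x; rw [hD]; exact lt_mk _
  have hz1 : hd (0 : EE (k + 1)) = 0 := map_zero hd
  have hz2 : lt (0 : EE (k + 1)) = 0 := map_zero lt
  constructor
  · rintro ⟨x, rfl⟩
    have hj : lt (ι (Θ (mk (hd x, σ (lt x))))).1 = σ (lt x) := by rw [hJ]; exact lt_mk _
    have hjr : ι (Θ (mk (hd x, σ (lt x)))) ∈ Set.range ι := ⟨_, rfl⟩
    rcases le_total (lt x) (T - 1) with h1 | h1
    · left
      obtain ⟨e1, e2⟩ := hσ1 _ h1
      refine ⟨by rw [hD2]; linarith, ?_⟩
      have : D x = ι (Θ (mk (hd x, σ (lt x)))) := by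
        refine wext (hD1 x) ?_ (hD3 x) ?_
        · rw [hD2, hj, e1]
        · rw [hD4, e2, one_mul]
      rw [this]
      exact hjr
    · rcases le_total (lt x) (T + 1) with h2 | h2
      · have h3 := hσ3 _ h1 h2
        have h4 : (ι (Θ (mk (hd x, σ (lt x))))).2 = 0 :=
          fact1 hK _ (by rw [hj]; linarith) hjr
        have h5 : (D x).2 = 0 := by
          apply ext_hd_lt
          · rw [hD3, h4]
          · rw [hD4, h4, hz2, mul_zero]
        rcases le_total (lt x) T with h6 | h6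
        · left
          refine ⟨by rw [hD2]; exact h6, fact2 hK _ ?_ h5⟩
          rw [hD2]; linarith
        · right
          refine ⟨by rw [hD2]; exact h6, fact2 hK _ ?_ ?_⟩
          · rw [rf_lt1, hD2]; linarith
          · apply ext_hd_lt
            · rw [rf_hd2, h5]
            · rw [rf_lt2, h5, hz2, neg_zero]
      · right
        obtain ⟨e1, e2⟩ := hσ2 _ h2
        refine ⟨by rw [hD2]; linarith, ?_⟩
        have : rf T (D x) = ι (Θ (mk (hd x, σ (lt x)))) := by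
          refine wext ?_ ?_ ?_ ?_
          · rw [rf_hd1, hD1]
          · rw [rf_lt1, hD2, hj, e1]
          · rw [rf_hd2, hD3]
          · rw [rf_lt2, hD4, e2]; ring
        rw [this]
        exact hjr
  · have mid : T - 1 ≤ lt w.1 → lt w.1 ≤ T + 1 → w.2 = 0 → w ∈ Set.range D := by
      intro h1 h2 hw2
      have h3 := hσ3 _ h1 h2
      obtain ⟨x', hx1, hx2⟩ := hrg (mk (hd w.1, σ (lt w.1)), 0)
        (fact2 hK _ (by show R < lt (mk (hd w.1, σ (lt w.1))); rw [lt_mk]; show R < σ (lt w.1); linarith) rfl)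
      have hx2' : lt x' = σ (lt w.1) := by rw [hx2]; exact lt_mk _
      refine ⟨mk (hd x', lt w.1), ?_⟩
      have hl : lt (mk (hd x', lt w.1)) = lt w.1 := lt_mk _
      have hh : hd (mk (hd x', lt w.1)) = hd x' := hd_mk _
      have ht : mk (hd (mk (hd x', lt w.1)), σ (lt (mk (hd x', lt w.1)))) = x' := by
        rw [hh, hl, ← hx2', mk_hd_lt]
      refine wext ?_ ?_ ?_ ?_
      · rw [hD1, ht, hx1]; exact hd_mk _
      · rw [hD2, hl]
      · rw [hD3, ht, hx1, hw2]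
      · rw [hD4, ht, hx1, hw2]
        show _ * lt (0 : EE (k + 1)) = _
        rw [hz2, mul_zero]
    rintro (⟨h1, h2⟩ | ⟨h1, h2⟩)
    · rcases le_total (lt w.1) (T - 1) with h3 | h3
      · obtain ⟨e1, e2⟩ := hσ1 _ h3
        obtain ⟨x, hx1, hx2⟩ := hrg w h2
        refine ⟨x, ?_⟩
        have ht : mk (hd x, σ (lt x)) = x := by
          rw [hx2, e1, ← hx2, mk_hd_lt]
        refine wext ?_ ?_ ?_ ?_
        · rw [hD1, ht, hx1]
        · rw [hD2, hx2]
        · rw [hD3, ht, hx1]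
        · rw [hD4, ht, hx1, hx2, e2, one_mul]
      · exact mid h3 (by linarith) (fact1 hK _ (by linarith) h2)
    · rcases le_total (T + 1) (lt w.1) with h3 | h3
      · obtain ⟨e1, e2⟩ := hσ2 _ h3
        obtain ⟨x', hx1, hx2⟩ := hrg _ h2
        rw [rf_lt1] at hx2
        refine ⟨mk (hd x', lt w.1), ?_⟩
        have hl : lt (mk (hd x', lt w.1)) = lt w.1 := lt_mk _
        have hh : hd (mk (hd x', lt w.1)) = hd x' := hd_mk _
        have ht : mk (hd (mk (hd x', lt w.1)), σ (lt (mk (hd x', lt w.1)))) = x' := by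
          rw [hh, hl, e1, ← hx2, mk_hd_lt]
        refine wext ?_ ?_ ?_ ?_
        · rw [hD1, ht, hx1, rf_hd1]
        · rw [hD2, hl]
        · rw [hD3, ht, hx1, rf_hd2]
        · rw [hD4, ht, hx1, hl, e2, rf_lt2]; ring
      · refine mid (by linarith) h3 ?_
        have h4 := fact1 hK _ (by rw [rf_lt1]; linarith) h2
        apply ext_hd_lt
        · rw [← rf_hd2 T w, h4]
        · have h5 := rf_lt2 T w
          rw [h4, hz2] at h5
          rw [hz2]; linarith

end Pool.Agent.Helper33.LC
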